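import Pool.Agent.K1H46.CP.Stm
import Pool.Agent.R365.QP.CoprP

/-! # Project CP (owner helper46): many coefficients. -/

set_option autoImplicit false

namespace Pool.Agent.K1H4.CP

open Pool.Agent.K1H46.CP Finset

/-- the numbers up to `M` coprime to `w` -/
def UU (M w : ℕ) : Finset ℕ := (Icc 1 M).filter fun u => Nat.Coprime u w

/-- odd numbers between `T / 8` and `M` -/
def WW (T M : ℕ) : Finset ℕ := (Icc 1 M).filter fun w => ¬ 2 ∣ w ∧ T ≤ 8 * w

theorem sum_UU (T : ℕ) (hT : 100 ≤ T) :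
    ((T / 2 : ℕ) : ℝ) ^ 2 / 16 ≤ ∑ w ∈ WW T (T / 2), ((UU (T / 2) w).card : ℝ) := by
  set M := T / 2 with hM
  have hM1 : 50 ≤ M := by omega
  have hMT : T ≤ 2 * M + 1 := by omega
  have hc := Pool.Agent.R365.QP.t_COPR M (by omega)
  set P := (Icc 1 M ×ˢ Icc 1 M).filter fun p : ℕ × ℕ => Nat.Coprime p.1 p.2 ∧ ¬ 2 ∣ p.2 with hP
  let W' : Finset ℕ := (Icc 1 M).filter fun w => ¬ 2 ∣ w ∧ 8 * w < T
  have hmap : Set.MapsTo Prod.snd (P : Set (ℕ × ℕ)) ((WW T M ∪ W' : Finset ℕ) : Set ℕ) := by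
    intro p hp
    rw [Finset.mem_coe, hP, mem_filter, mem_product] at hp
    rw [Finset.mem_coe, mem_union, WW, mem_filter, mem_filter]
    rcases Nat.lt_or_ge (8 * p.2) T with h | h
    · exact Or.inr ⟨hp.1.2, hp.2.2, h⟩
    · exact Or.inl ⟨hp.1.2, hp.2.2, h⟩
  have h1 := card_eq_sum_card_fiberwise hmap
  have h2 : ∀ w ∈ WW T M ∪ W', (P.filter fun p => p.2 = w).card ≤ (UU M w).card := by
    intro w _
    apply card_le_card_of_injOn Prod.fst
    · intro p hp
      rw [Finset.mem_coe, mem_filter, hP, mem_filter, mem_product] at hp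
      rw [Finset.mem_coe, UU, mem_filter]
      refine ⟨hp.1.1.1, ?_⟩
      rw [← hp.2]
      exact hp.1.2.1
    · intro p hp q hq h
      rw [Finset.mem_coe, mem_filter] at hp hq
      exact Prod.ext h (hp.2.trans hq.2.symm)
  have h3 : P.card ≤ ∑ w ∈ WW T M, (UU M w).card + ∑ w ∈ W', (UU M w).card := by
    rw [h1]
    refine (sum_le_sum h2).trans ?_
    rw [sum_union]
    rw [disjoint_left]
    intro w hw hw'
    rw [WW, mem_filter] at hw
    rw [mem_filter] at hw'
    omega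
  have h4 : ∑ w ∈ W', (UU M w).card ≤ (T / 16 + 1) * M := by
    have h5 : W'.card ≤ T / 16 + 1 := by
      have h6 : W' ⊆ (range (T / 16 + 1)).image fun k => 2 * k + 1 := by
        intro w hw
        rw [mem_filter] at hw
        rw [mem_image]
        refine ⟨w / 2, ?_, ?_⟩
        · rw [mem_range]
          omega
        · omega
      calc W'.card ≤ ((range (T / 16 + 1)).image fun k => 2 * k + 1).card := card_le_card h6
        _ ≤ (range (T / 16 + 1)).card := card_image_le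
        _ = T / 16 + 1 := card_range _
    calc ∑ w ∈ W', (UU M w).card ≤ ∑ w ∈ W', M := by
          refine sum_le_sum fun w _ => ?_
          calc (UU M w).card ≤ (Icc 1 M).card := card_filter_le _ _
            _ = M := by rw [Nat.card_Icc]; omega
      _ = W'.card * M := by rw [sum_const, smul_eq_mul]
      _ ≤ (T / 16 + 1) * M := Nat.mul_le_mul_right _ h5
  have h7 : (P.card : ℝ) ≤ ∑ w ∈ WW T M, ((UU M w).card : ℝ) + ((T / 16 : ℕ) + 1 : ℝ) * M := by
    have h8 : P.card ≤ ∑ w ∈ WW T M, (UU M w).card + (T / 16 + 1) * M := h3.trans (by omega)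
    exact_mod_cast h8
  have h9 : ((T / 16 : ℕ) : ℝ) ≤ (2 * M + 1) / 16 := by
    have h10 : ((T / 16 : ℕ) : ℝ) ≤ (T : ℝ) / 16 := by
      have := @Nat.cast_div_le ℝ _ _ _ T 16
      exact_mod_cast this
    have h11 : (T : ℝ) ≤ 2 * M + 1 := by exact_mod_cast hMT
    linarith
  have hMR : (50 : ℝ) ≤ M := by exact_mod_cast hM1
  nlinarith

theorem t_CNT : S_CNT := by
  refine ⟨1 / 60000, by norm_num, 100, fun T hT => ?_⟩
  set M := T / 2 with hM
  have hM1 : 50 ≤ M := by omega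
  have hMR : (50 : ℝ) ≤ M := by exact_mod_cast hM1
  have hTR : (100 : ℝ) ≤ T := by exact_mod_cast hT
  let S : Finset (ℕ × ℕ × ℕ) := (WW T M).biUnion fun w => {w} ×ˢ (UU M w ×ˢ UU M w)
  let E : Finset Q4 := (S ×ˢ range (T / 4)).image fun x =>
    ((x.1.1 : ℤ), (2 * x.1.2.1 : ℤ), (2 * x.1.2.2 : ℤ), (4 * x.2 + 2 : ℤ))
  have hScard : S.card = ∑ w ∈ WW T M, (UU M w).card ^ 2 := by
    rw [card_biUnion]
    · refine sum_congr rfl fun w _ => ?_
      rw [card_product, card_product, card_singleton, one_mul, sq]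
    · intro w _ w' _ hne
      rw [Function.onFun, disjoint_left]
      intro x hx hx'
      rw [mem_product, mem_singleton] at hx hx'
      exact hne (hx.1.symm.trans hx'.1)
  have hEcard : E.card = S.card * (T / 4) := by
    rw [card_image_of_injective, card_product, card_range]
    rintro ⟨⟨a, b, c⟩, d⟩ ⟨⟨a', b', c'⟩, d'⟩ h
    simp only [Prod.mk.injEq] at h ⊢
    refine ⟨⟨?_, ?_, ?_⟩, ?_⟩ <;> omega
  refine ⟨E, ?_, ?_⟩
  · have h1 := sum_UU T hT
    rw [← hM] at h1
    have h2 : (∑ w ∈ WW T M, ((UU M w).card : ℝ)) ^ 2 ≤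
        (WW T M).card * ∑ w ∈ WW T M, ((UU M w).card : ℝ) ^ 2 := sq_sum_le_card_mul_sum_sq
    have h3 : ((WW T M).card : ℝ) ≤ M := by
      have : (WW T M).card ≤ M := by
        calc (WW T M).card ≤ (Icc 1 M).card := card_filter_le _ _
          _ = M := by rw [Nat.card_Icc]; omega
      exact_mod_cast this
    have h4 : (S.card : ℝ) = ∑ w ∈ WW T M, ((UU M w).card : ℝ) ^ 2 := by
      rw [hScard]
      push_cast
      rfl
    rw [← h4] at h2
    have hS0 : (0 : ℝ) ≤ S.card := Nat.cast_nonneg _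
    have h5 : ((M : ℝ) ^ 2 / 16) ^ 2 ≤ M * S.card := by
      calc ((M : ℝ) ^ 2 / 16) ^ 2 ≤ (∑ w ∈ WW T M, ((UU M w).card : ℝ)) ^ 2 :=
            pow_le_pow_left₀ (by positivity) h1 2
        _ ≤ _ := h2
        _ ≤ M * S.card := mul_le_mul_of_nonneg_right h3 hS0
    have hM0 : (0 : ℝ) < M := by linarith
    have h6 : (M : ℝ) ^ 3 / 256 ≤ S.card := by
      have h7 : (M : ℝ) * (M ^ 3 / 256) ≤ M * S.card := by
        calc (M : ℝ) * (M ^ 3 / 256) = ((M : ℝ) ^ 2 / 16) ^ 2 := by ring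
          _ ≤ _ := h5
      exact le_of_mul_le_mul_left h7 hM0
    have h8 : (T : ℝ) / 3 ≤ M := by
      have : T ≤ 3 * M := by omega
      have h9 : (T : ℝ) ≤ 3 * M := by exact_mod_cast this
      linarith
    have h10 : (T : ℝ) / 8 ≤ ((T / 4 : ℕ) : ℝ) := by
      have : T ≤ 8 * (T / 4) := by omega
      have h9 : (T : ℝ) ≤ 8 * ((T / 4 : ℕ) : ℝ) := by exact_mod_cast this
      linarith
    have h11 : ((T : ℝ) / 3) ^ 3 ≤ (M : ℝ) ^ 3 := pow_le_pow_left₀ (by positivity) h8 3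
    rw [hEcard]
    push_cast
    calc 1 / 60000 * (T : ℝ) ^ 4 ≤ (((T : ℝ) / 3) ^ 3 / 256) * (T / 8) := by
          have : (0 : ℝ) ≤ (T : ℝ) ^ 4 := by positivity
          have h12 : (((T : ℝ) / 3) ^ 3 / 256) * (T / 8) = 1 / 55296 * (T : ℝ) ^ 4 := by ring
          rw [h12]
          nlinarith
      _ ≤ S.card * ((T / 4 : ℕ) : ℝ) := by
          apply mul_le_mul _ h10 (by positivity) hS0
          linarith
  · intro v hv
    rw [mem_image] at hv
    obtain ⟨⟨⟨w, u, u'⟩, k⟩, hx, rfl⟩ := hv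
    rw [mem_product, mem_biUnion, mem_range] at hx
    obtain ⟨⟨w', hw', hx1⟩, hk⟩ := hx
    rw [mem_product, mem_singleton, mem_product] at hx1
    obtain ⟨hww, hu, hu'⟩ := hx1
    simp only at hww hu hu' hk
    subst hww
    rw [WW, mem_filter, mem_Icc] at hw'
    rw [UU, mem_filter, mem_Icc] at hu hu'
    have hcop : Int.gcd (w : ℤ) ((2 * u : ℤ) * (2 * u' : ℤ)) = 1 := by
      have h2 : Nat.Coprime w 2 := Nat.coprime_two_right.2 (Nat.odd_iff.2 (by omega))
      have h3 : Nat.Coprime w (2 * u * (2 * u')) :=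
        Nat.Coprime.mul_right (Nat.Coprime.mul_right h2 hu.2.symm)
          (Nat.Coprime.mul_right h2 hu'.2.symm)
      exact_mod_cast h3
    refine ⟨⟨?_, ?_, ?_, ?_⟩, ?_, ?_, ?_, ?_, ?_, ?_, hcop⟩
    · simp only [abs_le]; constructor <;> omega
    · simp only [abs_le]; constructor <;> omega
    · simp only [abs_le]; constructor <;> omega
    · simp only [abs_le]; constructor <;> omega
    · have : (T : ℝ) ≤ 8 * w := by exact_mod_cast hw'.2.2
      push_cast
      linarith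
    · show (0 : ℤ) < w
      omega
    · show (w : ℤ) % 2 = 1
      omega
    · show (2 * u : ℤ) % 2 = 0
      omega
    · show (2 * u' : ℤ) % 2 = 0
      omega
    · show (4 * k + 2 : ℤ) % 4 = 2
      omega

end Pool.Agent.K1H4.CP
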