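import Pool.Agent.K1H46.CP.Stm

/-! # Project CP (owner helper46): short double zeros of cubic forms modulo `p`. -/

set_option autoImplicit false

namespace Pool.Agent.K1H4.CP

open Pool.Agent.K1H46.CP

theorem thue (p : ℕ) [Fact p.Prime] (z : ZMod p) :
    ∃ x y : ℤ, (x ≠ 0 ∨ y ≠ 0) ∧ x ^ 2 < p ∧ y ^ 2 < p ∧ (x : ZMod p) = z * y := by
  have hp : p.Prime := Fact.out
  set r := Nat.sqrt p with hr
  have hr1 : r * r ≤ p := Nat.sqrt_le p
  have hr2 : p < (r + 1) * (r + 1) := Nat.lt_succ_sqrt p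
  have hr3 : r * r < p := by
    refine lt_of_le_of_ne hr1 ?_
    intro h
    have : IsSquare p := ⟨r, h.symm⟩
    exact hp.prime.not_isSquare this
  let f : Fin (r + 1) × Fin (r + 1) → ZMod p := fun ij => (ij.1 : ℕ) - z * (ij.2 : ℕ)
  have hcard : Fintype.card (ZMod p) < Fintype.card (Fin (r + 1) × Fin (r + 1)) := by
    rw [ZMod.card, Fintype.card_prod, Fintype.card_fin]
    exact hr2
  obtain ⟨⟨i, j⟩, ⟨i', j'⟩, hne, heq⟩ := Fintype.exists_ne_map_eq_of_card_lt f hcard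
  refine ⟨((i : ℕ) : ℤ) - ((i' : ℕ) : ℤ), ((j : ℕ) : ℤ) - ((j' : ℕ) : ℤ), ?_, ?_, ?_, ?_⟩
  · by_contra hcon
    push Not at hcon
    apply hne
    have h1 : (i : ℕ) = (i' : ℕ) := by omega
    have h2 : (j : ℕ) = (j' : ℕ) := by omega
    exact Prod.ext (Fin.ext h1) (Fin.ext h2)
  · have h1 : ((i : ℕ) : ℤ) ≤ r := by have := i.2; omega
    have h2 : ((i' : ℕ) : ℤ) ≤ r := by have := i'.2; omega
    have h3 : (0 : ℤ) ≤ ((i : ℕ) : ℤ) := by positivity
    have h4 : (0 : ℤ) ≤ ((i' : ℕ) : ℤ) := by positivity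
    have h5 : (r : ℤ) * r < p := by exact_mod_cast hr3
    nlinarith
  · have h1 : ((j : ℕ) : ℤ) ≤ r := by have := j.2; omega
    have h2 : ((j' : ℕ) : ℤ) ≤ r := by have := j'.2; omega
    have h3 : (0 : ℤ) ≤ ((j : ℕ) : ℤ) := by positivity
    have h4 : (0 : ℤ) ≤ ((j' : ℕ) : ℤ) := by positivity
    have h5 : (r : ℤ) * r < p := by exact_mod_cast hr3
    nlinarith
  · have : ((i : ℕ) : ZMod p) - z * ((j : ℕ) : ZMod p)
        = ((i' : ℕ) : ZMod p) - z * ((j' : ℕ) : ZMod p) := heq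
    push_cast
    linear_combination this

theorem core (p : ℕ) (hp : p.Prime) (a b c d r₀ s₀ : ℤ)
    (h1 : (p : ℤ) ^ 2 ∣ ev (a, b, c, d) r₀ s₀) (h2 : (p : ℤ) ∣ eX (a, b, c, d) r₀ s₀)
    (h3 : (p : ℤ) ∣ eY (a, b, c, d) r₀ s₀) (h4 : ¬ (p : ℤ) ∣ s₀) :
    ∃ r s : ℤ, Int.gcd r s = 1 ∧ r ^ 2 ≤ (p : ℤ) ∧ s ^ 2 ≤ (p : ℤ) ∧ Dbl p (a, b, c, d) r s := by
  have : Fact p.Prime := ⟨hp⟩
  have hpZ : Prime (p : ℤ) := Nat.prime_iff_prime_int.1 hp
  have hs0 : (s₀ : ZMod p) ≠ 0 := by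
    intro h
    exact h4 ((ZMod.intCast_zmod_eq_zero_iff_dvd _ _).1 h)
  obtain ⟨x, y, hxy, hx, hy, hz⟩ := thue p ((r₀ : ZMod p) / s₀)
  have hdvd : (p : ℤ) ∣ x * s₀ - y * r₀ := by
    rw [← ZMod.intCast_zmod_eq_zero_iff_dvd]
    push_cast
    rw [hz]
    field_simp
    ring
  have hg0 : 0 < Int.gcd x y := Int.gcd_pos_iff.2 hxy
  set g := Int.gcd x y with hg
  obtain ⟨r, hr⟩ : (g : ℤ) ∣ x := Int.gcd_dvd_left ..
  obtain ⟨s, hs⟩ : (g : ℤ) ∣ y := Int.gcd_dvd_right ..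
  have hg1 : (1 : ℤ) ≤ g := by exact_mod_cast hg0
  have hrs : Int.gcd r s = 1 := by
    have h5 : Int.gcd x y = g * Int.gcd r s := by
      rw [hr, hs, Int.gcd_mul_left, Int.natAbs_natCast]
    rw [← hg] at h5
    exact Nat.eq_of_mul_eq_mul_left hg0 (by rw [mul_one]; exact h5.symm)
  have hg2 : (1 : ℤ) ≤ (g : ℤ) ^ 2 := by nlinarith
  have hr2 : r ^ 2 ≤ x ^ 2 := by
    rw [hr, mul_pow]
    nlinarith [mul_nonneg (sub_nonneg.2 hg2) (sq_nonneg r)]
  have hs2 : s ^ 2 ≤ y ^ 2 := by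
    rw [hs, mul_pow]
    nlinarith [mul_nonneg (sub_nonneg.2 hg2) (sq_nonneg s)]
  have hgp : ¬ (p : ℤ) ∣ g := by
    intro h
    have h5 : (p : ℤ) ≤ g := Int.le_of_dvd (by linarith) h
    have hp1 : (1 : ℤ) < p := by exact_mod_cast hp.one_lt
    rcases hxy with h6 | h6
    · have h7 : (g : ℤ) ^ 2 ≤ x ^ 2 := by
        rw [hr, mul_pow]
        have h8 : r ≠ 0 := by
          rintro rfl
          exact h6 (by rw [hr, mul_zero])
        have h9 : 1 ≤ r ^ 2 := by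
          have := sq_nonneg r
          have h10 : r ^ 2 ≠ 0 := pow_ne_zero _ h8
          omega
        nlinarith [sq_nonneg (g : ℤ)]
      nlinarith
    · have h7 : (g : ℤ) ^ 2 ≤ y ^ 2 := by
        rw [hs, mul_pow]
        have h8 : s ≠ 0 := by
          rintro rfl
          exact h6 (by rw [hs, mul_zero])
        have h9 : 1 ≤ s ^ 2 := by
          have := sq_nonneg s
          have h10 : s ^ 2 ≠ 0 := pow_ne_zero _ h8
          omega
        nlinarith [sq_nonneg (g : ℤ)]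
      nlinarith
  have hdvd2 : (p : ℤ) ∣ r * s₀ - s * r₀ := by
    have h5 : (p : ℤ) ∣ g * (r * s₀ - s * r₀) := by
      have : (g : ℤ) * (r * s₀ - s * r₀) = x * s₀ - y * r₀ := by
        rw [hr, hs]
        ring
      rw [this]
      exact hdvd
    exact (hpZ.dvd_or_dvd h5).resolve_left hgp
  -- the multiplier
  obtain ⟨l, hl⟩ : ∃ l : ℤ, (p : ℤ) ∣ s - l * s₀ := by
    refine ⟨((s : ZMod p) / s₀).val, ?_⟩
    rw [← ZMod.intCast_zmod_eq_zero_iff_dvd]
    push_cast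
    rw [ZMod.natCast_zmod_val]
    field_simp
    ring
  obtain ⟨e2, he2⟩ := hl
  have hl1 : (p : ℤ) ∣ r - l * r₀ := by
    have h5 : (p : ℤ) ∣ s₀ * (r - l * r₀) := by
      have : s₀ * (r - l * r₀) = (r * s₀ - s * r₀) + (s - l * s₀) * r₀ := by ring
      rw [this]
      exact dvd_add hdvd2 (Dvd.dvd.mul_right ⟨e2, he2⟩ _)
    exact (hpZ.dvd_or_dvd h5).resolve_left h4
  obtain ⟨e1, he1⟩ := hl1
  have hr' : r = l * r₀ + p * e1 := by linarith
  have hs' : s = l * s₀ + p * e2 := by linarith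
  refine ⟨r, s, hrs, hr2.trans hx.le, hs2.trans hy.le, ?_, ?_, ?_⟩
  · obtain ⟨k1, hk1⟩ := h1
    obtain ⟨k2, hk2⟩ := h2
    obtain ⟨k3, hk3⟩ := h3
    refine ⟨l ^ 3 * k1 + l ^ 2 * (e1 * k2 + e2 * k3) + l * ((3 * a * r₀ + b * s₀) * e1 ^ 2 +
      2 * (b * r₀ + c * s₀) * (e1 * e2) + (c * r₀ + 3 * d * s₀) * e2 ^ 2) +
      p * ev (a, b, c, d) e1 e2, ?_⟩
    rw [hr', hs']
    simp only [ev, eX, eY] at hk1 hk2 hk3 ⊢
    linear_combination l ^ 3 * hk1 + p * l ^ 2 * e1 * hk2 + p * l ^ 2 * e2 * hk3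
  · obtain ⟨k2, hk2⟩ := h2
    refine ⟨l ^ 2 * k2 + (3 * a * (2 * l * r₀ * e1 + p * e1 ^ 2) + 2 * b * (l * r₀ * e2 +
      l * s₀ * e1 + p * e1 * e2) + c * (2 * l * s₀ * e2 + p * e2 ^ 2)), ?_⟩
    rw [hr', hs']
    simp only [eX] at hk2 ⊢
    linear_combination l ^ 2 * hk2
  · obtain ⟨k3, hk3⟩ := h3
    refine ⟨l ^ 2 * k3 + (b * (2 * l * r₀ * e1 + p * e1 ^ 2) + 2 * c * (l * r₀ * e2 +
      l * s₀ * e1 + p * e1 * e2) + 3 * d * (2 * l * s₀ * e2 + p * e2 ^ 2)), ?_⟩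
    rw [hr', hs']
    simp only [eY] at hk3 ⊢
    linear_combination l ^ 2 * hk3

theorem t_DBL : S_DBL := by
  rintro p ⟨a, b, c, d⟩ hp h5 hD hT
  have hpZ : Prime (p : ℤ) := Nat.prime_iff_prime_int.1 hp
  have h2 : ¬ (p : ℤ) ∣ 2 := by
    intro h
    have := Int.le_of_dvd (by norm_num) h
    have h5' : (5 : ℤ) ≤ p := by exact_mod_cast h5
    omega
  have hD1 : (p : ℤ) ∣ dQ (a, b, c, d) := dvd_trans (dvd_pow_self _ (by norm_num)) hD
  have hD' : (p : ℤ) ^ 2 ∣ dsc a b c d := hD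
  have hD1' : (p : ℤ) ∣ dsc a b c d := hD1
  by_cases hA : (p : ℤ) ∣ b ^ 2 - 3 * a * c
  · by_cases hB : (p : ℤ) ∣ c ^ 2 - 3 * b * d
    · exfalso
      apply hT
      refine ⟨hA, ?_, hB⟩
      have h6 : (p : ℤ) ∣ (b * c - 9 * a * d) ^ 2 := by
        have h7 : (b * c - 9 * a * d) ^ 2 = 4 * (b ^ 2 - 3 * a * c) * (c ^ 2 - 3 * b * d) -
            3 * dsc a b c d := by
          unfold dsc
          ring
        rw [h7]
        exact dvd_sub (Dvd.dvd.mul_right (Dvd.dvd.mul_left hA _) _) (Dvd.dvd.mul_left hD1' _)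
      exact hpZ.dvd_of_dvd_pow h6
    · -- swap the variables
      have h6 : ¬ (p : ℤ) ∣ 2 * (c ^ 2 - 3 * b * d) := fun h =>
        (hpZ.dvd_or_dvd h).elim h2 hB
      obtain ⟨s, r, e1, e2, e3, e4, e5, e6⟩ := core p hp d c b a (-(b * c - 9 * a * d))
        (2 * (c ^ 2 - 3 * b * d)) (by
          have : ev (d, c, b, a) (-(b * c - 9 * a * d)) (2 * (c ^ 2 - 3 * b * d)) =
            dsc a b c d * (-(27 * d ^ 2 * a - 9 * b * c * d + 2 * c ^ 3)) := by
            simp only [ev, dsc]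
            ring
          rw [this]
          exact Dvd.dvd.mul_right hD' _) (by
          have : eX (d, c, b, a) (-(b * c - 9 * a * d)) (2 * (c ^ 2 - 3 * b * d)) =
            dsc a b c d * (-9 * d) := by
            simp only [eX, dsc]
            ring
          rw [this]
          exact Dvd.dvd.mul_right hD1' _) (by
          have : eY (d, c, b, a) (-(b * c - 9 * a * d)) (2 * (c ^ 2 - 3 * b * d)) =
            dsc a b c d * (-3 * c) := by
            simp only [eY, dsc]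
            ring
          rw [this]
          exact Dvd.dvd.mul_right hD1' _) h6
      refine ⟨r, s, by rw [Int.gcd_comm]; exact e1, e3, e2, ?_, ?_, ?_⟩
      · have : ev (a, b, c, d) r s = ev (d, c, b, a) s r := by simp only [ev]; ring
        rw [this]; exact e4
      · have : eX (a, b, c, d) r s = eY (d, c, b, a) s r := by simp only [eX, eY]; ring
        rw [this]; exact e6
      · have : eY (a, b, c, d) r s = eX (d, c, b, a) s r := by simp only [eX, eY]; ring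
        rw [this]; exact e5
  · have h6 : ¬ (p : ℤ) ∣ 2 * (b ^ 2 - 3 * a * c) := fun h =>
      (hpZ.dvd_or_dvd h).elim h2 hA
    exact core p hp a b c d (-(b * c - 9 * a * d)) (2 * (b ^ 2 - 3 * a * c)) (by
      have : ev (a, b, c, d) (-(b * c - 9 * a * d)) (2 * (b ^ 2 - 3 * a * c)) =
        dsc a b c d * (-(27 * a ^ 2 * d - 9 * a * b * c + 2 * b ^ 3)) := by
        simp only [ev, dsc]
        ring
      rw [this]
      exact Dvd.dvd.mul_right hD' _) (by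
      have : eX (a, b, c, d) (-(b * c - 9 * a * d)) (2 * (b ^ 2 - 3 * a * c)) =
        dsc a b c d * (-9 * a) := by
        simp only [eX, dsc]
        ring
      rw [this]
      exact Dvd.dvd.mul_right hD1' _) (by
      have : eY (a, b, c, d) (-(b * c - 9 * a * d)) (2 * (b ^ 2 - 3 * a * c)) =
        dsc a b c d * (-3 * b) := by
        simp only [eY, dsc]
        ring
      rw [this]
      exact Dvd.dvd.mul_right hD1' _) h6

end Pool.Agent.K1H4.CP
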